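import Mathlib
import Pool.Agent.Helper17.Herglotz
import Pool.Agent.Helper63.FX.ExLikeOf
import Pool.Agent.Helper40.TMA.Trace
import Pool.Agent.Helper61.FR.Circle
import Pool.Agent.Helper61.DR.Diff
import Pool.Agent.Helper61.DR.Circle
import Pool.Agent.Helper61.DR.Reg
import Pool.Agent.Helper61.DR.Dens
import Pool.Agent.Helper61.DR.Single
import Pool.Agent.Helper17.JR.RegE

set_option autoImplicit false
open scoped ComplexOrder InnerProductSpace
open Filter MeasureTheory Finset Helper17.FU Helper17.FUGroup Helper91.TTT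

namespace Pool.Agent.Results.MP_81910f_an.DiffusiveRigidity

/-- extreme normalised positive definite class functions -/
def IsExtremeTrace (G : Subgroup (Equiv.Perm ℚ)) (φ : G → ℂ) : Prop :=
  φ ∈ Set.extremePoints ℝ {ψ : G → ℂ | ψ 1 = 1 ∧ (∀ g h : G, ψ (h * g * h⁻¹) = ψ g) ∧
    ∀ (s : Finset G) (c : G → ℂ), 0 ≤ ∑ i ∈ s, ∑ j ∈ s, star (c j) * c i * ψ (j⁻¹ * i)}

/-- the translates by translations span a finite dimensional space -/
def CondFiniteDim (G : Subgroup (Equiv.Perm ℚ)) (φ : G → ℂ) : Prop :=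
  FiniteDimensional ℂ (Submodule.span ℂ {F : G → ℂ | ∃ n : G,
    (∃ r : ℚ, ∀ x : ℚ, (n : Equiv.Perm ℚ) x = x + r) ∧ F = fun x => φ (n * x)})

/-- the correlation of `m` and `g ^ b m` -/
noncomputable def corr {G : Subgroup (Equiv.Perm ℚ)} (τ : G) (φ : G → ℂ) (g m b : ℕ) : ℂ :=
  φ (τ ^ (m * ((g : ℤ) ^ b - 1) : ℤ)) - (‖φ (τ ^ m)‖ ^ 2 : ℝ)

/-- the correlation of `m` and `2 ^ a 3 ^ b m`, for integers `a`, `b` -/
noncomputable def corr2 {G : Subgroup (Equiv.Perm ℚ)} (τ : G) (φ : G → ℂ) (m : ℕ) (a b : ℤ) : ℂ :=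
  φ (τ ^ (m * (2 ^ a.toNat * 3 ^ b.toNat - 2 ^ (-a).toNat * 3 ^ (-b).toNat) : ℤ)) -
    (‖φ (τ ^ m)‖ ^ 2 : ℝ)

/-- regular polynomial decay, with exponent `β`, of the correlations of `m` under `ℤ × ℤ` -/
def RegDecay {G : Subgroup (Equiv.Perm ℚ)} (τ : G) (φ : G → ℂ) (β : ℝ) (m : ℕ) : Prop :=
  ∃ C : ℝ, ∀ a b : ℤ, ‖corr2 τ φ m a b‖ ≤ C * (1 + |(a : ℝ)| + |(b : ℝ)|) ^ (-β) ∧
    ‖corr2 τ φ m (a + 1) b - corr2 τ φ m a b‖ ≤ C * (1 + |(a : ℝ)| + |(b : ℝ)|) ^ (-1 - β)

/-- the correlations of `m` under `ℤ × ℤ` are the Fourier coefficients of a density on the square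
`[-1/2, 1/2] ^ 2` which is at most `C (|u| + |v|) ^ (-s)` -/
def SpecDensity {G : Subgroup (Equiv.Perm ℚ)} (τ : G) (φ : G → ℂ) (s : ℝ) (m : ℕ) : Prop :=
  ∃ (C : ℝ) (d : ℝ × ℝ → ℝ), Measurable d ∧ (∀ p, 0 ≤ d p) ∧
    (∀ p, p ≠ 0 → |p.1| ≤ 1 / 2 → |p.2| ≤ 1 / 2 → d p ≤ C * (|p.1| + |p.2|) ^ (-s)) ∧
    ∀ a b : ℤ, corr2 τ φ m a b =
      ∫ p in Set.Icc (-(1 / 2) : ℝ) (1 / 2) ×ˢ Set.Icc (-(1 / 2) : ℝ) (1 / 2),
        (d p : ℂ) * Complex.exp (2 * Real.pi * (a * p.1 + b * p.2 : ℝ) * Complex.I)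

/-- average of the character `x ↦ e^{2 π i m x}` over the points `g ^ k x`, `k < N` -/
noncomputable def orbAvg (g N : ℕ) (m : ℤ) (x : AddCircle (1 : ℝ)) : ℂ :=
  (∑ k ∈ range N, (fourier (m * (g : ℤ) ^ k) x : ℂ)) / N

theorem result :
  ∀ (s2 s3 t : Equiv.Perm ℚ), (∀ x : ℚ, s2 x = 2 * x) → (∀ x : ℚ, s3 x = 3 * x) →
  (∀ x : ℚ, t x = x + 1) →
  ∀ (G : Subgroup (Equiv.Perm ℚ)), G = Subgroup.closure {s2, s3, t} →
  ∀ τ : G, (τ : Equiv.Perm ℚ) = t →
  ∀ φ : G → ℂ, IsExtremeTrace G φ →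
  ∀ g : ℕ, g = 2 ∨ g = 3 →
  List.TFAE [
    φ = Set.indicator ({1} : Set G) (fun _ => (1 : ℂ)) ∨ φ τ = 1,
    ∀ m : ℕ, 1 ≤ m → Summable fun b : ℕ => ‖corr τ φ g m b‖,
    ∃ θ : ℝ, θ < 1 / 2 ∧ ∀ m : ℕ, 1 ≤ m →
      Summable fun b : ℕ => ‖corr τ φ g m b‖ / Real.log (b + 2) ^ θ,
    ∃ β : ℝ, 2 / 3 < β ∧ ∀ m : ℕ, 1 ≤ m → RegDecay τ φ β m,
    ∃ s : ℝ, s < 4 / 3 ∧ ∀ m : ℕ, 1 ≤ m → SpecDensity τ φ s m] ∧
  (¬ CondFiniteDim G φ → ∃ μ : Measure (AddCircle (1 : ℝ)), IsProbabilityMeasure μ ∧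
    (∀ m : ℤ, ∫ x, (fourier m x : ℂ) ∂μ = φ (τ ^ m)) ∧ List.TFAE [
    φ = Set.indicator ({1} : Set G) (fun _ => (1 : ℂ)),
    ∀ m : ℕ, 1 ≤ m → ∃ C : ℝ, ∀ N : ℕ, 1 ≤ N →
      ∑ b ∈ range N, (1 - (b : ℝ) / N) * (corr τ φ g m b).re ≤ C,
    ∃ θ : ℝ, θ < 1 / 2 ∧ ∀ m : ℕ, 1 ≤ m → ∃ C : ℝ, ∀ N : ℕ, 1 ≤ N →
      ∑ b ∈ range N, (1 - (b : ℝ) / N) * (corr τ φ g m b).re ≤ C * Real.log (N + 1) ^ θ,
    ∃ θ : ℝ, θ < 1 / 2 ∧ ∀ m : ℕ, 1 ≤ m → ∃ p C : ℝ, 0 < p ∧ ∀ N : ℕ, 1 ≤ N →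
      ∫ x, ‖orbAvg g N m x - φ (τ ^ m)‖ ^ p ∂μ ≤ C * Real.log (N + 1) ^ θ / N,
    ∃ γ : ℝ, γ < 3 / 2 ∧ ∀ m : ℕ, 1 ≤ m → ∀ η : ℝ, 0 < η → Summable fun N : ℕ =>
      μ.real {x | η < ‖orbAvg g N m x - φ (τ ^ m)‖} / Real.log (N + 2) ^ γ]) ∧
  (¬ φ = Set.indicator ({1} : Set G) (fun _ => (1 : ℂ)) → ¬ CondFiniteDim G φ →
    ∀ m : ℕ, 1 ≤ m → 1 / 2 < ‖φ (τ ^ m)‖ →
    (∀ θ : ℝ, θ < 1 / 2 → ¬ Summable fun b : ℕ => ‖corr τ φ 3 m b‖ / Real.log (b + 2) ^ θ) ∧
    (∀ β : ℝ, 2 / 3 < β → ¬ RegDecay τ φ β m) ∧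
    ∀ s : ℝ, s < 4 / 3 → ¬ SpecDensity τ φ s m) := by
  intro s2 s3 t h2 h3 ht G hG τ hτ φ hφ g hg
  subst hG
  have hφ' : φ ∈ Set.extremePoints ℝ (TR (GG s2 s3 t)) := hφ
  have hφT := hφ'.1
  have hφ1 : φ 1 = 1 := hφT.1
  have hφc := hφT.2.1
  have hFφ : Fact (PD φ) := ⟨hφT.2.2⟩
  obtain ⟨σ2, σ3, τ', hσ2, hσ3, hτ', e2, e3, ecomm, hgen⟩ := relations h2 h3 ht
  have hττ' : τ' = τ := Subtype.ext (by rw [hτ', hτ])
  rw [hττ'] at e2 e3 hgen
  -- the measure
  obtain ⟨μ, hμp, hμ⟩ := Helper17.Herglotz.herglotz (rf_pdz (φ := φ) τ 1)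
    (by unfold rf; simp [hφ1])
  have hμ' : ∀ n : ℤ, ∫ x, (fourier n x : ℂ) ∂μ = φ (τ ^ n) := by
    intro n
    rw [hμ n]; unfold rf; rw [one_mul]
  have hinv : ∀ N : ℕ, (∀ j : ℤ, φ (τ ^ ((N : ℤ) * j)) = φ (τ ^ j)) →
      MeasurePreserving (Helper17.TranslM.T N) μ μ := by
    intro N hN
    refine ⟨Helper17.TranslM.measurable_T N, ?_⟩
    have hp : IsProbabilityMeasure (μ.map (Helper17.TranslM.T N)) :=
      Measure.isProbabilityMeasure_map (Helper17.TranslM.measurable_T N).aemeasurable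
    apply Helper17.TranslM.eq_of_fourier
    intro m
    rw [integral_map (Helper17.TranslM.measurable_T N).aemeasurable
      (fourier m).continuous.aestronglyMeasurable, hμ' m, ← hN m, ← hμ']
    refine integral_congr_ae (Eventually.of_forall fun x => ?_)
    simp only [Helper17.TranslM.T, fourier_apply]
    congr 1
    congr 1
    rw [← natCast_zsmul, smul_smul, mul_comm]
  have hm2 : MeasurePreserving (fun x : AddCircle (1 : ℝ) => (2 : ℕ) • x) μ μ := by
    apply hinv 2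
    intro j
    have := Helper17.FU.conj_pow e2 j
    rw [show ((2 : ℕ) : ℤ) * j = 2 * j by norm_num]
    rw [← this, hφc]
  have hm3 : MeasurePreserving (fun x : AddCircle (1 : ℝ) => (3 : ℕ) • x) μ μ := by
    apply hinv 3
    intro j
    have := conj_pow3 e3 j
    rw [show ((3 : ℕ) : ℤ) * j = 3 * j by norm_num]
    rw [← this, hφc]
  obtain ⟨ρ, hρ, hρμ, hat⟩ := Pool.Agent.Helper61.FR.exists_inv23 μ hm2 hm3
  have hcf : ∀ n : ℤ, Pool.Agent.Helper61.FR.cf ρ n = φ (τ ^ n) := fun n => by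
    rw [← Pool.Agent.Helper61.FR.integral_fourier_eq hρμ, hμ']
  have hcc' : ∀ g m b : ℕ, Pool.Agent.Helper61.DR.cc ρ g m b = corr τ φ g m b := by
    intro g m b
    unfold Pool.Agent.Helper61.DR.cc corr
    rw [hcf, hcf, zpow_natCast]
  have hcc := hcc' g
  have hcz : ∀ (m : ℕ) (a b : ℤ), Helper17.JR.cz ρ m a b = corr2 τ φ m a b := by
    intro m a b
    unfold Helper17.JR.cz corr2
    rw [hcf, hcf, zpow_natCast]
  have hmean : ∀ m : ℕ, ∫ x, Pool.Agent.Helper61.FR.e (m * x) ∂ρ = φ (τ ^ m) := by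
    intro m
    rw [← zpow_natCast, ← hcf]
    unfold Pool.Agent.Helper61.FR.cf
    simp
  have hRD : ∀ (β : ℝ) (m : ℕ), RegDecay τ φ β m ↔ ∃ C : ℝ, Helper17.JR.Reg ρ m β C := by
    intro β m
    unfold RegDecay Helper17.JR.Reg
    simp only [hcz]
  have hSD : ∀ (s : ℝ) (m : ℕ), SpecDensity τ φ s m ↔ ∃ C : ℝ, Helper17.JR.Dens ρ m s C := by
    intro s m
    unfold SpecDensity Helper17.JR.Dens
    simp only [hcz]
    rfl
  -- vanishing of the coefficients characterises `Δ`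
  have hne : ¬ φ = Set.indicator ({1} : Set (GG s2 s3 t)) (fun _ => (1 : ℂ)) →
      ¬ CondFiniteDim (GG s2 s3 t) φ → (∀ x, ρ {x} = 0) ∧
      ¬ ∀ m : ℕ, 1 ≤ m → Pool.Agent.Helper61.FR.cf ρ m = 0 := by
    intro hΔ hfd
    have hex := Helper63.FX.exlike_of_exotic h2 h3 ht hτ hφ' hΔ hfd
    obtain ⟨ν, hνp, hν, -, -, hν0⟩ := hex.rep
    have hνμ : ν = μ := by
      apply Helper17.TranslM.eq_of_fourier
      intro m
      rw [hμ' m]
      exact hν m
    rw [hνμ] at hν0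
    refine ⟨hat hν0, fun hz => ?_⟩
    obtain ⟨n, hn, hφn⟩ := hex.ne
    apply hφn
    show φ (τ ^ n) = 0
    rw [← hcf n]
    rcases lt_or_gt_of_ne hn with h | h
    · have h5 := hz (-n).toNat (by omega)
      rw [show (((-n).toNat : ℕ) : ℤ) = -n by omega, Pool.Agent.Helper61.FR.cf_neg,
        star_eq_zero] at h5
      exact h5
    · have h5 := hz n.toNat (by omega)
      rwa [show ((n.toNat : ℕ) : ℤ) = n by omega] at h5
  -- the trace `Δ`
  have hΔτ : φ = Set.indicator ({1} : Set (GG s2 s3 t)) (fun _ => (1 : ℂ)) →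
      ∀ n : ℤ, n ≠ 0 → φ (τ ^ n) = 0 := by
    intro hΔ n hn
    rw [hΔ, Set.indicator_of_notMem]
    intro h
    have h5 : (τ : Equiv.Perm ℚ) ^ n = 1 := by
      rw [← Subgroup.coe_zpow, show τ ^ n = 1 from h, Subgroup.coe_one]
    have h6 := congrArg (fun f : Equiv.Perm ℚ => f 0) h5
    simp only [hτ] at h6
    rw [t_zpow ht] at h6
    simp only [Equiv.Perm.coe_one, id] at h6
    apply hn
    have : (n : ℚ) = 0 := by linarith
    exact_mod_cast this
  have hΔcorr : φ = Set.indicator ({1} : Set (GG s2 s3 t)) (fun _ => (1 : ℂ)) →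
      ∀ m : ℕ, 1 ≤ m → ∀ b : ℕ, corr τ φ g m b = if b = 0 then 1 else 0 := by
    intro hΔ m hm b
    unfold corr
    have h5 : φ (τ ^ m) = 0 := by
      have := hΔτ hΔ m (by omega)
      rwa [zpow_natCast] at this
    rw [h5]
    by_cases hb : b = 0
    · subst hb
      simp [hφ1]
    · have h6 : (m * ((g : ℤ) ^ b - 1) : ℤ) ≠ 0 := by
        have h7 : (1 : ℤ) < (g : ℤ) ^ b := one_lt_pow₀ (by omega) hb
        have h8 : (m : ℤ) ≠ 0 := by omega
        exact mul_ne_zero h8 (by omega)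
      rw [hΔτ hΔ _ h6]
      simp [hb]
  have hΔ2 : φ = Set.indicator ({1} : Set (GG s2 s3 t)) (fun _ => (1 : ℂ)) → ∀ m : ℕ, 1 ≤ m →
      corr2 τ φ m 0 0 = 1 ∧ ∀ a b : ℤ, ¬ (a = 0 ∧ b = 0) → corr2 τ φ m a b = 0 := by
    intro hΔ m hm
    have h5 : φ (τ ^ m) = 0 := by
      have := hΔτ hΔ m (by omega)
      rwa [zpow_natCast] at this
    refine ⟨?_, fun a b hab => ?_⟩
    · unfold corr2
      rw [h5]
      simp [hφ1]
    · unfold corr2
      have h8 : (m : ℤ) ≠ 0 := by omega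
      rw [h5, hΔτ hΔ _ (mul_ne_zero h8 (Pool.Agent.Helper61.DR.clear_ne_zero hab))]
      simp
  have hone : φ τ = 1 → ∀ (m : ℕ) (a b : ℤ), corr2 τ φ m a b = 0 := by
    intro h1 m a b
    have hu : ‖∫ x, (fourier 1 x : ℂ) ∂μ‖ = 1 := by
      rw [hμ', zpow_one, h1, norm_one]
    have hall : ∀ n : ℤ, φ (τ ^ n) = 1 := by
      intro n
      rw [← hμ', Pool.Agent.Helper61.DR.coeff_pow hu n, hμ', zpow_one, h1, one_zpow]
    unfold corr2
    have h6 : φ (τ ^ m) = 1 := by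
      have := hall m
      rwa [zpow_natCast] at this
    rw [hall, h6]
    simp
  -- the finite orbits: correlations which vanish at infinity
  have hfin : CondFiniteDim (GG s2 s3 t) φ →
      Tendsto (fun b : ℕ => corr2 τ φ 1 0 b) atTop (nhds 0) → φ τ = 1 := by
    intro hfd hlim
    obtain ⟨d, c, hc, hrec⟩ := Pool.Agent.Helper40.TMA.exists_recurrence hτ ht hfd
    obtain ⟨Z, hZ, hZ'⟩ := Pool.Agent.Helper40.TMA.finite_support μ d c hc (fun m => by
      rw [← hrec m]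
      refine Finset.sum_congr rfl fun j _ => ?_
      congr 1
      exact hμ' _)
    obtain ⟨p, hp, hper⟩ := Pool.Agent.Helper61.DR.coeff_period 3 hm3 Z hZ hZ'
    have hu : ‖∫ x, (fourier 1 x : ℂ) ∂μ‖ = 1 := by
      by_contra hne1
      have hle : ‖∫ x, (fourier 1 x : ℂ) ∂μ‖ ≤ 1 := by
        rw [hμ', ← hcf]
        exact Pool.Agent.Helper61.DR.norm_cf_le hρ 1
      have hlt : ‖φ τ‖ < 1 := by
        have := lt_of_le_of_ne hle hne1
        rwa [hμ', zpow_one] at this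
      have hpos : 0 < 1 - ‖φ τ‖ ^ 2 := by nlinarith [norm_nonneg (φ τ)]
      have h6 : ∀ j : ℕ, corr2 τ φ 1 0 ((p * j : ℕ) : ℤ) = ((1 - ‖φ τ‖ ^ 2 : ℝ) : ℂ) := by
        intro j
        have h5 := hper j
        rw [hμ'] at h5
        unfold corr2
        have e1 : ((1 : ℕ) * (2 ^ (0 : ℤ).toNat * 3 ^ ((p * j : ℕ) : ℤ).toNat -
            2 ^ (-(0 : ℤ)).toNat * 3 ^ (-((p * j : ℕ) : ℤ)).toNat) : ℤ) =
            ((3 : ℕ) : ℤ) ^ (p * j) - 1 := by
          have e2 : (-((p * j : ℕ) : ℤ)).toNat = 0 := by omega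
          have e3 : ((p * j : ℕ) : ℤ).toNat = p * j := Int.toNat_natCast _
          rw [e2, e3]
          simp
        rw [e1, h5, pow_one]
        push_cast
        rfl
      have h7 : Tendsto (fun j : ℕ => p * j) atTop atTop :=
        tendsto_atTop_mono (fun j => Nat.le_mul_of_pos_left j hp) tendsto_id
      have h8 := hlim.comp h7
      have h9 : ((fun b : ℕ => corr2 τ φ 1 0 b) ∘ fun j : ℕ => p * j) =
          fun _ => ((1 - ‖φ τ‖ ^ 2 : ℝ) : ℂ) := funext fun j => h6 j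
      rw [h9] at h8
      have h10 := tendsto_nhds_unique h8 tendsto_const_nhds
      have h11 : (1 - ‖φ τ‖ ^ 2 : ℝ) = 0 := by exact_mod_cast h10.symm
      linarith
    have h7 := Pool.Agent.Helper61.DR.coeff_eq_one hm2 hu
    rwa [hμ', zpow_one] at h7
  refine ⟨?_, ?_, ?_⟩
  · tfae_have 1 → 2 := by
      rintro (hΔ | h1) m hm
      · refine summable_of_ne_finset_zero (s := {0}) fun b hb => ?_
        rw [hΔcorr hΔ m hm b, if_neg (by simpa using hb), norm_zero]
      · have hu : ‖∫ x, (fourier 1 x : ℂ) ∂μ‖ = 1 := by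
          rw [hμ', zpow_one, h1, norm_one]
        have hall : ∀ n : ℤ, φ (τ ^ n) = 1 := by
          intro n
          rw [← hμ', Pool.Agent.Helper61.DR.coeff_pow hu n, hμ', zpow_one, h1, one_zpow]
        have hz : (fun b : ℕ => ‖corr τ φ g m b‖) = fun _ => 0 := by
          funext b
          unfold corr
          have h6 : φ (τ ^ m) = 1 := by
            have := hall m
            rwa [zpow_natCast] at this
          rw [hall, h6]
          simp
        rw [hz]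
        exact summable_zero
    tfae_have 2 → 3 := by
      intro hS
      refine ⟨0, by norm_num, fun m hm => ?_⟩
      simp only [Real.rpow_zero, div_one]
      exact hS m hm
    tfae_have 3 → 1 := by
      rintro ⟨θ, hθ, hS⟩
      by_cases hfd : CondFiniteDim (GG s2 s3 t) φ
      · right
        obtain ⟨d, c, hc, hrec⟩ := Pool.Agent.Helper40.TMA.exists_recurrence hτ ht hfd
        obtain ⟨Z, hZ, hZ'⟩ := Pool.Agent.Helper40.TMA.finite_support μ d c hc (fun m => by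
          rw [← hrec m]
          refine Finset.sum_congr rfl fun j _ => ?_
          congr 1
          exact hμ' _)
        have hmg : MeasurePreserving (fun x : AddCircle (1 : ℝ) => g • x) μ μ := by
          rcases hg with rfl | rfl
          · exact hm2
          · exact hm3
        obtain ⟨p, hp, hper⟩ := Pool.Agent.Helper61.DR.coeff_period g hmg Z hZ hZ'
        have hu : ‖∫ x, (fourier 1 x : ℂ) ∂μ‖ = 1 := by
          by_contra hne1
          have hle : ‖∫ x, (fourier 1 x : ℂ) ∂μ‖ ≤ 1 := by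
            rw [hμ', ← hcf]
            exact Pool.Agent.Helper61.DR.norm_cf_le hρ 1
          have hlt : ‖φ τ‖ < 1 := by
            have := lt_of_le_of_ne hle hne1
            rwa [hμ', zpow_one] at this
          refine Pool.Agent.Helper61.DR.not_summable_log (max θ (1 / 4))
            (lt_max_of_lt_right (by norm_num)) (max_le (by linarith) (by norm_num)) p hp
            (1 - ‖φ τ‖ ^ 2) (by nlinarith [norm_nonneg (φ τ)]) (fun b => ‖corr τ φ g 1 b‖)
            (fun b => norm_nonneg _) (fun j => ?_)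
            (Pool.Agent.Helper61.DR.summable_log_mono (fun b => norm_nonneg _) (le_max_left _ _)
              (hS 1 le_rfl))
          have h5 := hper j
          rw [hμ'] at h5
          have h6 : corr τ φ g 1 (p * j) = ((1 - ‖φ τ‖ ^ 2 : ℝ) : ℂ) := by
            unfold corr
            rw [Nat.cast_one, one_mul, h5, pow_one]
            push_cast
            rfl
          simp only [h6, Complex.norm_real]
          exact le_abs_self _
        have h7 := Pool.Agent.Helper61.DR.coeff_eq_one hm2 hu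
        rwa [hμ', zpow_one] at h7
      · left
        by_contra hΔ
        obtain ⟨h0, hz⟩ := hne hΔ hfd
        exact hz (Pool.Agent.Helper61.DR.cf_eq_zero_of_summable hρ h0 g hg θ hθ (fun m hm => by
          simp only [hcc]
          exact hS m hm))
    tfae_have 1 → 4 := by
      rintro (hΔ | h1)
      · exact ⟨1, by norm_num, fun m hm => ⟨4, fun a b => Pool.Agent.Helper61.DR.reg_delta
          (c := corr2 τ φ m) (hΔ2 hΔ m hm).1 (hΔ2 hΔ m hm).2 a b⟩⟩
      · refine ⟨1, by norm_num, fun m hm => ⟨0, fun a b => ?_⟩⟩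
        simp only [hone h1, sub_self, norm_zero, zero_mul, le_refl, and_self]
    tfae_have 4 → 1 := by
      rintro ⟨β, hβ, hS⟩
      by_cases hfd : CondFiniteDim (GG s2 s3 t) φ
      · right
        refine hfin hfd ?_
        obtain ⟨C, hC⟩ := hS 1 le_rfl
        have hlim : Tendsto (fun j : ℕ => C * (1 + |((0 : ℤ) : ℝ)| + |(((j : ℕ) : ℤ) : ℝ)|) ^ (-β))
            atTop (nhds (C * 0)) := by
          refine Tendsto.const_mul _ ?_
          refine (tendsto_rpow_neg_atTop (by linarith : (0 : ℝ) < β)).comp ?_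
          refine tendsto_atTop_mono (fun j => ?_) tendsto_natCast_atTop_atTop
          have h7 := le_abs_self (((j : ℕ) : ℤ) : ℝ)
          simp only [Int.cast_zero, abs_zero, add_zero]
          rw [Int.cast_natCast] at h7 ⊢
          linarith
        rw [mul_zero] at hlim
        exact squeeze_zero_norm (fun j => (hC 0 (j : ℤ)).1) hlim
      · left
        by_contra hΔ
        obtain ⟨h0, hz⟩ := hne hΔ hfd
        refine hz fun m hm => ?_
        have h8 : Pool.Agent.Helper61.FR.cf ρ m =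
            ∫ x, Pool.Agent.Helper61.FR.e (m * x) ∂ρ := by
          unfold Pool.Agent.Helper61.FR.cf
          simp
        rw [h8]
        exact Helper17.JR.core_reg' hρ h0 β hβ (fun m hm => (hRD β m).mp (hS m hm)) m hm
    tfae_have 1 → 5 := by
      rintro (hΔ | h1)
      · refine ⟨0, by norm_num, fun m hm => ⟨1, fun _ => 1, measurable_const,
          fun _ => zero_le_one, fun p _ _ _ => by simp, fun a b => ?_⟩⟩
        have h5 := Pool.Agent.Helper61.DR.int_e_sq a b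
        unfold Pool.Agent.Helper61.DR.sq Pool.Agent.Helper61.FR.e at h5
        simp only [Complex.ofReal_one, one_mul]
        rw [h5]
        split_ifs with hab
        · obtain ⟨rfl, rfl⟩ := hab
          exact (hΔ2 hΔ m hm).1
        · exact (hΔ2 hΔ m hm).2 a b hab
      · refine ⟨0, by norm_num, fun m hm => ⟨0, fun _ => 0, measurable_const,
          fun _ => le_rfl, fun p _ _ _ => by simp, fun a b => ?_⟩⟩
        rw [hone h1]
        simp
    tfae_have 5 → 1 := by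
      rintro ⟨s, hs, hS⟩
      by_cases hfd : CondFiniteDim (GG s2 s3 t) φ
      · right
        refine hfin hfd ?_
        obtain ⟨C, d, -, -, -, hd⟩ := hS 1 le_rfl
        refine (Pool.Agent.Helper61.DR.tendsto_coeff d).congr fun b => ?_
        have h5 := hd 0 (b : ℤ)
        unfold Pool.Agent.Helper61.DR.sq Pool.Agent.Helper61.FR.e
        rw [h5]
        simp only [Int.cast_natCast]
      · left
        by_contra hΔ
        obtain ⟨h0, hz⟩ := hne hΔ hfd
        refine hz fun m hm => ?_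
        have h8 : Pool.Agent.Helper61.FR.cf ρ m =
            ∫ x, Pool.Agent.Helper61.FR.e (m * x) ∂ρ := by
          unfold Pool.Agent.Helper61.FR.cf
          simp
        rw [h8]
        exact Helper17.JR.core_dens hρ h0 s hs (fun m hm => (hSD s m).mp (hS m hm)) m hm
    tfae_finish
  · intro hfd
    refine ⟨μ, hμp, hμ', ?_⟩
    have horb : ∀ (N : ℕ) (m : ℤ), orbAvg g N m = Pool.Agent.Helper61.DR.oavg g N m :=
      fun _ _ => rfl
    have hφm : ∀ m : ℕ, φ (τ ^ m) = ∫ y, (fourier (m : ℤ) y : ℂ) ∂μ := by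
      intro m
      rw [hμ', zpow_natCast]
    tfae_have 1 → 2 := by
      intro hΔ m hm
      refine ⟨1, fun N hN => ?_⟩
      have h5 : ∀ b ∈ range N, (1 - (b : ℝ) / N) * (corr τ φ g m b).re =
          if b = 0 then 1 else 0 := by
        intro b _
        rw [hΔcorr hΔ m hm b]
        by_cases hb : b = 0
        · subst hb; simp
        · simp [hb]
      rw [Finset.sum_congr rfl h5, Finset.sum_ite_eq']
      split_ifs <;> norm_num
    tfae_have 2 → 3 := by
      intro hS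
      refine ⟨0, by norm_num, fun m hm => ?_⟩
      simp only [Real.rpow_zero, mul_one]
      exact hS m hm
    tfae_have 3 → 4 := by
      rintro ⟨θ, hθ, hS⟩
      refine ⟨θ, hθ, fun m hm => ?_⟩
      obtain ⟨C, hC⟩ := hS m hm
      refine ⟨2, 2 * C, two_pos, fun N hN => ?_⟩
      have h5 := hC N hN
      simp only [← hcc] at h5
      have h6 : ∫ x, ‖orbAvg g N m x - φ (τ ^ m)‖ ^ (2 : ℝ) ∂μ ≤
          2 * (C * Real.log (N + 1) ^ θ) / N := by
        simp only [horb, hφm, Real.rpow_two]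
        rcases hg with rfl | rfl
        · rw [Pool.Agent.Helper61.DR.oavg_two,
            Pool.Agent.Helper61.FR.integral_var_eq hρμ N 1 m]
          exact Pool.Agent.Helper61.DR.variance_two_le hρ N m hN _ h5
        · rw [Pool.Agent.Helper61.DR.oavg_three,
            Pool.Agent.Helper61.FR.integral_var_eq hρμ 1 N m]
          exact Pool.Agent.Helper61.DR.variance_three_le hρ N m hN _ h5
      refine h6.trans (le_of_eq ?_)
      ring
    tfae_have 4 → 5 := by
      rintro ⟨θ, hθ, hV⟩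
      refine ⟨5 / 4 + max θ 0 / 2, ?_, fun m hm η hη => ?_⟩
      · have : max θ 0 < 1 / 2 := max_lt hθ (by norm_num)
        linarith
      · obtain ⟨p, C, hp, hC⟩ := hV m hm
        exact Pool.Agent.Helper61.DR.series_of_moment g m _ θ hθ p C hp hC η hη
    tfae_have 5 → 1 := by
      rintro ⟨γ, hγ, hW⟩
      by_contra hΔ
      obtain ⟨h0, hz⟩ := hne hΔ hfd
      have h0' : ∀ x, μ {x} = 0 := by
        have hex := Helper63.FX.exlike_of_exotic h2 h3 ht hτ hφ' hΔ hfd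
        obtain ⟨ν, hνp, hν, -, -, hν0⟩ := hex.rep
        have hνμ : ν = μ := by
          apply Helper17.TranslM.eq_of_fourier
          intro m
          rw [hμ' m]
          exact hν m
        rw [hνμ] at hν0
        exact hν0
      apply hz
      intro m hm
      rw [hcf, ← hμ']
      refine Pool.Agent.Helper61.DR.circle_series hm2 hm3 h0' g hg γ hγ (fun m hm η hη => ?_) m hm
      have h5 := hW m hm η hη
      rw [hφm m] at h5
      exact h5
    tfae_finish
  · intro hΔ hfd m hm hφm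
    obtain ⟨h0, -⟩ := hne hΔ hfd
    have hφm' : 1 / 2 < ‖∫ y, Pool.Agent.Helper61.FR.e (m * y) ∂ρ‖ := by
      rw [hmean]
      exact hφm
    refine ⟨fun θ hθ hS => ?_, fun β hβ hS => ?_, fun s hs hS => ?_⟩
    · refine Pool.Agent.Helper61.DR.not_summable_single hρ h0 m hm hφm' θ hθ ?_
      simp only [hcc']
      exact hS
    · obtain ⟨C, hC⟩ := (hRD β m).mp hS
      exact Pool.Agent.Helper61.DR.not_reg_single hρ h0 m hm hφm' β hβ C hC
    · obtain ⟨C, hC⟩ := (hSD s m).mp hS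
      exact Pool.Agent.Helper61.DR.not_dens_single hρ h0 m hm hφm' s hs C hC

end Pool.Agent.Results.MP_81910f_an.DiffusiveRigidity
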