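import Mathlib
import Pool.Agent.Helper40.LPA.Trace
import Pool.Agent.Helper3.MX.W1
import Pool.Agent.Helper13.MX.BL
import Pool.Agent.Helper13.MX.Rg3
import Pool.Agent.Helper15.MX.WFour
import Pool.Agent.Helper18.MX.CM
import Pool.Agent.Helper18.MX.DC
import Pool.Agent.Helper25.MX.Tl6
import Pool.Agent.Helper27.MX.PA
import Pool.Agent.Helper27.MX.RG1
import Pool.Agent.Helper28.MX.W3b
import Pool.Agent.Helper35.MX.Uni
import Pool.Agent.Helper43.MX.S2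
import Pool.Agent.Helper43.MX.SO
import Pool.Agent.Helper43.MX.UM
import Pool.Agent.Helper45.MX.W3a
import Pool.Agent.Helper45.MX.WT
import Pool.Agent.Helper48.MX.CB
import Pool.Agent.Helper48.MX.E3
import Pool.Agent.Helper50.MX.W2b
import Pool.Agent.Helper53.MX.CC
import Pool.Agent.Helper57.MX.Step
import Pool.Agent.Helper58.MX.NA
import Pool.Agent.Helper58.MX.RO
import Pool.Agent.Helper62.MX.S3
import Pool.Agent.Helper69.MX.E4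
import Pool.Agent.Helper70.MX.AR
import Pool.Agent.Helper70.MX.ARo
import Pool.Agent.Helper75.MX.W5
import Pool.Agent.Helper79.MX.RG2
import Pool.Agent.Helper79.MX.UA
import Pool.Agent.Helper82.MX.E2

/-!
# Coefficients of extreme traces

`G` is the group generated by `x ↦ 2x`, `x ↦ 3x`, `x ↦ x + 1`, `τ` is the translation by one.
-/

set_option autoImplicit false
open scoped ComplexOrder
open MeasureTheory Finset Helper17.FU Helper17.FUGroup Helper91.TTT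

namespace Pool.Agent.Results.MP_81910f_an.MixingRates

/-- extreme normalised positive definite class functions -/
def IsExtremeTrace (G : Subgroup (Equiv.Perm ℚ)) (φ : G → ℂ) : Prop :=
  φ ∈ Set.extremePoints ℝ {ψ : G → ℂ | ψ 1 = 1 ∧ (∀ g h : G, ψ (h * g * h⁻¹) = ψ g) ∧
    ∀ (s : Finset G) (c : G → ℂ), 0 ≤ ∑ i ∈ s, ∑ j ∈ s, star (c j) * c i * ψ (j⁻¹ * i)}

/-- the span of the translates of `φ` by the translations in `G`; its dimension is the conditional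
dimension of `φ` -/
def condSpan (G : Subgroup (Equiv.Perm ℚ)) (φ : G → ℂ) : Submodule ℂ (G → ℂ) :=
  Submodule.span ℂ {F : G → ℂ | ∃ n : G,
    (∃ r : ℚ, ∀ x : ℚ, (n : Equiv.Perm ℚ) x = x + r) ∧ F = fun x => φ (n * x)}

/-- `μ` is the probability measure on the circle with Fourier coefficients `φ (τ ^ m)` -/
def IsMeasureOf {G : Subgroup (Equiv.Perm ℚ)} (τ : G) (φ : G → ℂ)
    (μ : Measure (AddCircle (1 : ℝ))) : Prop :=
  IsProbabilityMeasure μ ∧ ∀ m : ℤ, ∫ x, (fourier m x : ℂ) ∂μ = φ (τ ^ m)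

/-- `ρ` is nonincreasing and summable, `γ > 1 / 2` -/
def Rate (ρ : ℕ → ℝ) (γ : ℝ) : Prop := Antitone ρ ∧ Summable ρ ∧ 1 / 2 < γ

/-- correlations of order four of the single character `k` along the powers of `g`, in the range
`[0, L]`, with the rate `ρ`: for `u = e₁ g ^ b₁ - e₂ g ^ b₂` and `v = e₃ g ^ b₃ - e₄ g ^ b₄`, with
exponents at distance at most `D ^ γ` inside `u` and inside `v` and at least `D` between `u` and
`v`, the coefficient at `k (u + v)` differs from the product of those at `k u` and `k v` by at most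
`ρ D` -/
def Mixing4 {G : Subgroup (Equiv.Perm ℚ)} (τ : G) (φ : G → ℂ) (g k : ℕ) (ρ : ℕ → ℝ) (γ : ℝ)
    (L : ℕ) : Prop :=
  ∀ b₁ ≤ L, ∀ b₂ ≤ L, ∀ b₃ ≤ L, ∀ b₄ ≤ L, ∀ D ≤ L, ∀ e₁ e₂ e₃ e₄ : ℤ, (e₁ = 0 ∨ e₁ = 1) →
    (e₂ = 0 ∨ e₂ = 1) → (e₃ = 0 ∨ e₃ = 1) → (e₄ = 0 ∨ e₄ = 1) →
      |(b₁ : ℝ) - b₂| ≤ (D : ℝ) ^ γ → |(b₃ : ℝ) - b₄| ≤ (D : ℝ) ^ γ →
      (D : ℝ) ≤ |(b₁ : ℝ) - b₃| → (D : ℝ) ≤ |(b₁ : ℝ) - b₄| →
      (D : ℝ) ≤ |(b₂ : ℝ) - b₃| → (D : ℝ) ≤ |(b₂ : ℝ) - b₄| →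
        ‖φ (τ ^ (k * (e₁ * g ^ b₁ - e₂ * g ^ b₂ + (e₃ * g ^ b₃ - e₄ * g ^ b₄)) : ℤ)) -
          φ (τ ^ (k * (e₁ * g ^ b₁ - e₂ * g ^ b₂) : ℤ)) *
            φ (τ ^ (k * (e₃ * g ^ b₃ - e₄ * g ^ b₄) : ℤ))‖ ≤ ρ D

/-- the average of `e (k 2 ^ a 3 ^ b x)` over `(a, b) ∈ F` -/
noncomputable def avg (k : ℕ) (F : Finset (ℕ × ℕ)) (x : AddCircle (1 : ℝ)) : ℂ :=
  (∑ p ∈ F, (fourier ((k * (2 ^ p.1 * 3 ^ p.2) : ℕ) : ℤ) x : ℂ)) / F.card

/-- `F` is not empty and the numbers `2 ^ a 3 ^ b`, `(a, b) ∈ F`, are in `[4 ^ j, e ^ η 4 ^ j)` -/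
def InWindow (η : ℝ) (j : ℕ) (F : Finset (ℕ × ℕ)) : Prop :=
  F.Nonempty ∧ ∀ p ∈ F, (4 : ℝ) ^ j ≤ (2 ^ p.1 * 3 ^ p.2 : ℕ) ∧
    ((2 ^ p.1 * 3 ^ p.2 : ℕ) : ℝ) < Real.exp η * 4 ^ j

/-- **Coefficients of an extreme trace.**  There are finite ranges `[0, L ρ γ c]` such that for
every extreme trace `φ`, with measure `μ`, the conditional dimension of `φ` is finite if and only if
some coefficient `φ (τ ^ N)`, `N ≥ 1`, is one; coefficients tend to one at a summable rate; one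
nonzero coefficient `c` satisfies the inequality of mixing of order four with a summable rate `ρ`,
along the powers of two or of three, in the range `[0, L ρ γ c]`; one character with nonzero mean
differs from its mean by a coboundary for `x ↦ 3 x` with integrable transfer function; the averages
of one such character over some sets of powers of three, or over some sets of numbers
`2 ^ a * 3 ^ b` in narrow windows, converge completely; such averages are exact at all large scales;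
functions odd under `x ↦ x + 1 / 2` with Lipschitz constants `2 ^ (j + 1)` are close to one with
probabilities whose weighted entropies are summable. -/
theorem result :
  ∀ (s2 s3 t : Equiv.Perm ℚ), (∀ x : ℚ, s2 x = 2 * x) → (∀ x : ℚ, s3 x = 3 * x) →
  (∀ x : ℚ, t x = x + 1) →
  ∀ (G : Subgroup (Equiv.Perm ℚ)), G = Subgroup.closure {s2, s3, t} →
  ∀ τ : G, (τ : Equiv.Perm ℚ) = t →
  ∃ L : (ℕ → ℝ) → ℝ → ℂ → ℕ,
  ∀ φ : G → ℂ, IsExtremeTrace G φ → ∃ μ : Measure (AddCircle (1 : ℝ)), IsMeasureOf τ φ μ ∧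
    List.TFAE [
    -- (1) finite conditional dimension
    FiniteDimensional ℂ (condSpan G φ),
    -- (2) a coefficient equal to one
    ∃ N : ℕ, 1 ≤ N ∧ φ (τ ^ N) = 1,
    -- (3) coefficients close to one
    ∃ n : ℕ → ℕ, (∀ j, 1 ≤ n j ∧ n j ≤ 2 ^ j) ∧ Summable fun j => ‖1 - φ (τ ^ n j)‖,
    -- (4) one nonzero coefficient mixes, to order four, in a finite range
    ∃ (g k : ℕ) (ρ : ℕ → ℝ) (γ : ℝ), (g = 2 ∨ g = 3) ∧ 1 ≤ k ∧ φ (τ ^ k) ≠ 0 ∧ Rate ρ γ ∧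
      Mixing4 τ φ g k ρ γ (L ρ γ (φ (τ ^ k))),
    -- (5) a coboundary
    ∃ (k : ℕ) (g : AddCircle (1 : ℝ) → ℂ), 1 ≤ k ∧ φ (τ ^ k) ≠ 0 ∧ Integrable g μ ∧
      ∀ᵐ x ∂μ, (fourier (k : ℤ) x : ℂ) - φ (τ ^ k) = g x - g ((3 : ℕ) • x),
    -- (6) complete convergence along powers of three
    ∃ (k : ℕ) (F : ℕ → Finset (ℕ × ℕ)), 1 ≤ k ∧ φ (τ ^ k) ≠ 0 ∧
      (∀ N, ∀ p ∈ F N, p.1 = 0 ∧ p.2 ≤ N) ∧
      Summable fun N => μ.real {x | ‖φ (τ ^ k)‖ / 2 ≤ ‖avg k (F N) x - φ (τ ^ k)‖},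
    -- (7) complete convergence over narrow windows
    ∃ (k : ℕ) (η : ℝ) (F : ℕ → Finset (ℕ × ℕ)), 1 ≤ k ∧ φ (τ ^ k) ≠ 0 ∧ 0 < η ∧
      Real.pi * (Real.exp η - 1) ≤ ‖φ (τ ^ k)‖ / 8 ∧ (∀ j, InWindow η j (F j)) ∧
      Summable fun j => μ.real {x | ‖φ (τ ^ k)‖ / 8 ≤ ‖avg k (F j) x - φ (τ ^ k)‖},
    -- (8) exact averages over narrow windows at all large scales
    (∃ k : ℕ, 1 ≤ k ∧ φ (τ ^ k) ≠ 0) ∧ ∀ (k : ℕ) (η : ℝ), 1 ≤ k → φ (τ ^ k) ≠ 0 → 0 < η →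
      ∃ F : ℕ → Finset (ℕ × ℕ), (∀ j, InWindow η j (F j)) ∧
        ∀ᶠ j in Filter.atTop, ∀ᵐ x ∂μ, avg k (F j) x = φ (τ ^ k),
    -- (9) odd functions close to one
    ∃ P : ℕ → AddCircle (1 : ℝ) → ℂ,
      (∀ j, (∀ x : AddCircle (1 : ℝ), P j (x + ((1 / 2 : ℝ) : AddCircle (1 : ℝ))) = -P j x) ∧
        ∀ x y : AddCircle (1 : ℝ), ‖P j x - P j y‖ ≤ 2 ^ (j + 1) * ‖x - y‖) ∧
      Summable fun j : ℕ => (μ.real {x | 1 / 2 ≤ ‖P j x - 1‖} +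
        Real.negMulLog (μ.real {x | 1 / 2 ≤ ‖P j x - 1‖})) / Real.log ((j : ℝ) + 2)] := by
  have hE2 := Pool.Agent.Helper82.MX.s_E2
  have hARo := Pool.Agent.Helper70.MX.s_ARo hE2 Pool.Agent.Helper43.MX.s_SO
  have hAR := Pool.Agent.Helper70.MX.s_AR hE2 Pool.Agent.Helper43.MX.s_S2
  have hRG2 := Pool.Agent.Helper79.MX.s_RG2 hARo
  have hW4 := Pool.Agent.Helper15.MX.s_W4 Pool.Agent.Helper3.MX.s_W1
    (Pool.Agent.Helper57.MX.s_W2 Pool.Agent.Helper50.MX.s_W2b) Pool.Agent.Helper45.MX.s_W3a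
    Pool.Agent.Helper28.MX.s_W3b
  have hCM := Pool.Agent.Helper18.MX.s_CM hE2 Pool.Agent.Helper48.MX.s_E3
    Pool.Agent.Helper69.MX.s_E4 Pool.Agent.Helper43.MX.s_S2 Pool.Agent.Helper62.MX.s_S3
    Helper13.MXBL.s_BL
  have h : Pool.Agent.Helper87.MX.FinalSt.S_FINAL := Pool.Agent.Helper25.MX.s_final
    Pool.Agent.Helper27.MX.s_RG1 hRG2 Helper13.MXRG.s_RG3 (Pool.Agent.Helper48.MX.s_CB hAR)
    (Pool.Agent.Helper53.MX.s_CC hRG2 Pool.Agent.Helper58.MX.s_RO) hCM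
    (Pool.Agent.Helper45.MX.s_WT hW4) Pool.Agent.Helper75.MX.s_W5
  have hUM := Pool.Agent.Helper43.MX.s_UM (Pool.Agent.Helper79.MX.s_UA Helper13.MXBL.s_BL
    Pool.Agent.Helper18.MX.s_DC Pool.Agent.Helper58.MX.s_NA Pool.Agent.Helper27.MX.s_PA)
  intro s2 s3 t h2 h3 ht G hG τ hτ
  have h0 := h s2 s3 t h2 h3 ht G hG τ hτ
  subst hG
  have hL : ∀ (ρ : ℕ → ℝ) (γ : ℝ) (c : ℂ), ∃ L : ℕ, Rate ρ γ → c ≠ 0 → c ≠ 1 →
      ∀ φ : GG s2 s3 t → ℂ, IsExtremeTrace (GG s2 s3 t) φ → ∀ g k : ℕ, (g = 2 ∨ g = 3) → 1 ≤ k →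
        φ (τ ^ k) = c → ¬ Mixing4 τ φ g k ρ γ L := by
    intro ρ γ c
    by_cases hc : Rate ρ γ ∧ c ≠ 0 ∧ c ≠ 1
    · obtain ⟨hρ, hc0, hc1⟩ := hc
      obtain ⟨L, hL⟩ := Pool.Agent.Helper35.MX.uniform_traces hUM h2 h3 ht hτ ρ γ
        (min ‖c‖ ‖1 - c‖) hρ
        (lt_min (norm_pos_iff.2 hc0) (norm_pos_iff.2 (sub_ne_zero.2 (Ne.symm hc1))))
      refine ⟨L, fun _ _ _ φ hφ g k hg hk hck hmix => ?_⟩
      rcases hL φ hφ.1 g k hg hk hmix with h5 | h5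
      · rw [hck] at h5
        exact absurd (h5.trans_le (min_le_left _ _)) (lt_irrefl _)
      · rw [hck] at h5
        exact absurd (h5.trans_le (min_le_right _ _)) (lt_irrefl _)
    · exact ⟨0, fun h5 h6 h7 => absurd ⟨h5, h6, h7⟩ hc⟩
  choose L hL using hL
  refine ⟨L, fun φ hφ => ?_⟩
  obtain ⟨μ, hμp, hμ, -, -⟩ := Pool.Agent.Helper40.TMA.exists_measure h2 h3 ht hτ
    (show φ ∈ Set.extremePoints ℝ (TR (GG s2 s3 t)) from hφ)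
  have h1 := h0 φ hφ μ ⟨hμp, hμ⟩
  refine ⟨μ, ⟨hμp, hμ⟩, ?_⟩
  tfae_have 1 ↔ 2 := h1.out 0 1
  tfae_have 1 ↔ 3 := h1.out 0 2
  tfae_have 1 ↔ 5 := h1.out 0 4
  tfae_have 1 ↔ 6 := h1.out 0 5
  tfae_have 1 ↔ 7 := h1.out 0 6
  tfae_have 1 ↔ 8 := h1.out 0 7
  tfae_have 1 ↔ 9 := h1.out 0 8
  tfae_have 2 → 4 := by
    rintro ⟨N, hN, h5⟩
    refine ⟨2, N, fun _ => 0, 1, Or.inl rfl, hN, by rw [h5]; exact one_ne_zero,
      ⟨antitone_const, summable_zero, by norm_num⟩, ?_⟩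
    have h6 : ∀ m : ℤ, φ (τ ^ ((N : ℤ) * m)) = 1 := fun m => by
      rw [← hμ]
      refine Pool.Agent.Helper25.MX.cf_mul_eq_one ?_ m
      show ∫ x, (fourier (N : ℤ) x : ℂ) ∂μ = 1
      rw [hμ, zpow_natCast]
      exact h5
    intro b₁ _ b₂ _ b₃ _ b₄ _ D _ e₁ e₂ e₃ e₄ _ _ _ _ _ _ _ _ _ _
    rw [h6, h6, h6]
    simp
  tfae_have 4 → 2 := by
    rintro ⟨g, k, ρ, γ, hg, hk, hne, hρ, hmix⟩
    by_contra hcon
    exact hL ρ γ (φ (τ ^ k)) hρ hne (fun h5 => hcon ⟨k, hk, h5⟩) φ hφ g k hg hk rfl hmix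
  tfae_finish

end Pool.Agent.Results.MP_81910f_an.MixingRates
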